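import Mathlib
import Pool.Agent.H.MP_8e3df5_co.NF
import Pool.Agent.H.MP_8e3df5_co.ND

/-! Over every field of characteristic zero with a primitive 12th root of unity there is a line
arrangement with 22 lines and without double points that is not free. -/

set_option autoImplicit false

namespace Pool.Agent.Results.MP_8e3df5_co.TwentyTwoLines

open MvPolynomial

variable {K : Type} [Field K]

/-- The linear form of a line of the projective plane, the line being given by the class of its
coefficient vector. -/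
noncomputable def form (H : Projectivization K (Fin 3 → K)) : MvPolynomial (Fin 3) K :=
  ∑ i : Fin 3, C (H.rep i) * X i

/-- The defining polynomial of the arrangement. -/
noncomputable def defPoly (A : Finset (Projectivization K (Fin 3 → K))) :
    MvPolynomial (Fin 3) K := ∏ H ∈ A, form H

/-- The module of logarithmic derivations. -/
noncomputable def logDer (A : Finset (Projectivization K (Fin 3 → K))) :
    Submodule (MvPolynomial (Fin 3) K)
      (Derivation K (MvPolynomial (Fin 3) K) (MvPolynomial (Fin 3) K)) where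
  carrier := {θ | defPoly A ∣ θ (defPoly A)}
  add_mem' h1 h2 := dvd_add h1 h2
  zero_mem' := dvd_zero _
  smul_mem' c _ h := Dvd.dvd.mul_left h c

/-- The arrangement is free. -/
def IsFree (A : Finset (Projectivization K (Fin 3 → K))) : Prop :=
  Module.Free (MvPolynomial (Fin 3) K) (logDer A)

open Classical in
/-- The number of lines of the arrangement through the point `p`. -/
noncomputable def mult (A : Finset (Projectivization K (Fin 3 → K)))
    (p : Projectivization K (Fin 3 → K)) : ℕ :=
  (A.filter fun H => ∑ i : Fin 3, H.rep i * p.rep i = 0).card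

open Pool.Agent.MP_8e3df5_co in
lemma logDer_eq (A : Finset (Projectivization K (Fin 3 → K))) : DA A = logDer A := by
  apply le_antisymm
  · exact Submodule.span_le.2 (fun θ h => h)
  · intro θ h
    exact Submodule.subset_span h

section

variable [CharZero K] [DecidableEq K] (w i : K) (hw : w ^ 2 + w + 1 = 0) (hi : i ^ 2 = -1)

open Pool.Agent.MP_8e3df5_co

include hw hi in
lemma EE_card_eq : (EE w i).card = 22 := by
  have hs : sq3 w i = -i * (2 * w + 1) := rfl
  have hs0 : sq3 w i ≠ 0 := by grind
  have hsm : sq3 w i - 1 ≠ 0 := by grind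
  have hsp : sq3 w i + 1 ≠ 0 := by grind
  have e1 : (EE w i) = ((M3 w ×ˢ M4 i) ∪ (C6 w i).image (fun c => (c, (0 : K)))) ∪
      (M4 i).image (fun b => ((0 : K), b * sq3 w i / 3)) := by
    unfold EE C6
    rw [Finset.image_union, Finset.image_image, Finset.image_image, Finset.union_assoc
      (M3 w ×ˢ M4 i)]
    rfl
  have hC0 : ∀ c ∈ C6 w i, c ≠ 0 := by
    intro c hc
    unfold C6 at hc
    rw [Finset.mem_union, Finset.mem_image, Finset.mem_image] at hc
    rcases hc with ⟨a, ha, rfl⟩ | ⟨a, ha, rfl⟩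
    · have := M3_ne_zero w hw ha
      exact div_ne_zero (mul_ne_zero this hsm) two_ne_zero
    · have := M3_ne_zero w hw ha
      exact div_ne_zero (mul_ne_zero (neg_ne_zero.2 this) hsp) two_ne_zero
  rw [e1, Finset.card_union_of_disjoint, Finset.card_union_of_disjoint,
    Finset.card_image_of_injective, Finset.card_image_of_injective, Finset.card_product,
    C6_card w i hw hi, M3_card w hw, M4_card i hi]
  · intro b b' h
    have h2 : b * sq3 w i / 3 = b' * sq3 w i / 3 := congrArg Prod.snd h
    have h3 : (3 : K) ≠ 0 := by norm_num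
    field_simp at h2
    exact h2
  · intro c c' h
    exact congrArg Prod.fst h
  · rw [Finset.disjoint_left]
    rintro ⟨c, d⟩ h1 h2
    rw [Finset.mem_product] at h1
    rw [Finset.mem_image] at h2
    obtain ⟨c', _, h⟩ := h2
    have h3 : (0 : K) = d := congrArg Prod.snd h
    exact M4_ne_zero i hi h1.2 h3.symm
  · rw [Finset.disjoint_left]
    rintro ⟨c, d⟩ h1 h2
    rw [Finset.mem_image] at h2
    obtain ⟨b, hb, h⟩ := h2
    have h3 : (0 : K) = c := congrArg Prod.fst h
    rw [Finset.mem_union, Finset.mem_product, Finset.mem_image] at h1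
    rcases h1 with h1 | ⟨c', hc', h1⟩
    · exact M3_ne_zero w hw h1.1 h3.symm
    · have h4 : c' = c := congrArg Prod.fst h1
      exact hC0 c' hc' (h4.trans h3.symm)

include hw hi in
lemma AA_card_eq : (AA w i).card = 22 := by
  classical
  unfold AA
  rw [Finset.card_image_of_injective, EE_card_eq w i hw hi]
  rintro ⟨c, d⟩ ⟨c', d'⟩ h
  exact mk_inj h

include hw hi in
lemma no_mult_two (p : Projectivization K (Fin 3 → K)) : mult (AA w i) p ≠ 2 := by
  classical
  intro h
  unfold mult at h
  rw [Finset.card_eq_two] at h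
  obtain ⟨H₁, H₂, hne, h⟩ := h
  have hmem : ∀ H, (H ∈ AA w i ∧ ∑ j : Fin 3, H.rep j * p.rep j = 0) ↔ (H = H₁ ∨ H = H₂) := by
    intro H
    have := Finset.ext_iff.1 h H
    simpa using this
  apply no_double w i hw hi
  refine ⟨p, H₁, ((hmem H₁).2 (Or.inl rfl)).1, H₂, ((hmem H₂).2 (Or.inr rfl)).1, hne, ?_⟩
  intro H hH
  rw [← hmem H]
  exact ⟨fun h => ⟨hH, h⟩, fun h => h.2⟩

end

/-- Over every field of characteristic zero with a primitive 12th root of unity some arrangement
of 22 lines has no double point and is not free. -/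
theorem result : ∀ (K : Type) [Field K] [CharZero K] (ζ : K), IsPrimitiveRoot ζ 12 →
    ∃ A : Finset (Projectivization K (Fin 3 → K)),
      A.card = 22 ∧ (∀ p : Projectivization K (Fin 3 → K), mult A p ≠ 2) ∧ ¬ IsFree A := by
  classical
  intro K _ _ ζ hζ
  have hw : (ζ ^ 4) ^ 2 + ζ ^ 4 + 1 = 0 := by
    have h3 : IsPrimitiveRoot (ζ ^ 4) 3 := hζ.pow (by norm_num) (by norm_num)
    have h1 : (ζ ^ 4) ^ 3 = 1 := h3.pow_eq_one
    have h2 : ζ ^ 4 ≠ 1 := h3.ne_one (by norm_num)
    have h4 : (ζ ^ 4 - 1) * ((ζ ^ 4) ^ 2 + ζ ^ 4 + 1) = 0 := by linear_combination h1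
    exact (mul_eq_zero.1 h4).resolve_left (sub_ne_zero.2 h2)
  have hi : (ζ ^ 3) ^ 2 = -1 := by
    have h3 : IsPrimitiveRoot (ζ ^ 3) 4 := hζ.pow (by norm_num) (by norm_num)
    have h1 : (ζ ^ 3) ^ 4 = 1 := h3.pow_eq_one
    have h2 : (ζ ^ 3) ^ 2 ≠ 1 := h3.pow_ne_one_of_pos_of_lt (by norm_num) (by norm_num)
    have h4 : ((ζ ^ 3) ^ 2 - 1) * ((ζ ^ 3) ^ 2 + 1) = 0 := by linear_combination h1
    have h5 := (mul_eq_zero.1 h4).resolve_left (sub_ne_zero.2 h2)
    linear_combination h5
  refine ⟨Pool.Agent.MP_8e3df5_co.AA (ζ ^ 4) (ζ ^ 3), AA_card_eq _ _ hw hi,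
    no_mult_two _ _ hw hi, ?_⟩
  unfold IsFree
  rw [← logDer_eq]
  exact Pool.Agent.MP_8e3df5_co.not_free_AA _ _ hw hi

end Pool.Agent.Results.MP_8e3df5_co.TwentyTwoLines
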